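import Pool.Agent.Helper18.KO.Defs

/-!
Part CONTR of the swarm KO (`MP_35885f_co`): choice between two routes for every end of every
demand.
-/

set_option autoImplicit false

namespace Pool.Agent.Helper74.KO

open Finset

section contr

variable {V : Type} [DecidableEq V]

/-- a pattern `p` is hit by the choice `q` for the demand `d` -/
def hit (p : Finset V × Finset V) (q : Bool × Bool) (d : V × V) : Prop :=
  d.1 ∈ (if q.1 then p.1 else p.2) ∨ d.2 ∈ (if q.2 then p.1 else p.2)

instance (p : Finset V × Finset V) (q : Bool × Bool) (d : V × V) : Decidable (hit p q d) := by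
  unfold hit; infer_instance

theorem four (p : Finset V × Finset V) (hp : Disjoint p.1 p.2) (d : V × V) :
    ∑ q : Bool × Bool, (if hit p q d then 2 else 1) ≤ 7 := by
  have h1 : ∃ q : Bool × Bool, ¬ hit p q d := by
    have hx : ∃ a : Bool, d.1 ∉ (if a then p.1 else p.2) := by
      by_cases h : d.1 ∈ p.1
      · exact ⟨false, by simpa using disjoint_left.1 hp h⟩
      · exact ⟨true, by simpa using h⟩
    have hy : ∃ a : Bool, d.2 ∉ (if a then p.1 else p.2) := by
      by_cases h : d.2 ∈ p.1
      · exact ⟨false, by simpa using disjoint_left.1 hp h⟩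
      · exact ⟨true, by simpa using h⟩
    obtain ⟨a, ha⟩ := hx
    obtain ⟨b, hb⟩ := hy
    exact ⟨(a, b), fun h => h.elim ha hb⟩
  obtain ⟨q, hq⟩ := h1
  rw [← add_sum_erase _ _ (mem_univ q), if_neg hq]
  have h2 : ∑ q ∈ (univ : Finset (Bool × Bool)).erase q, (if hit p q d then 2 else 1) ≤
      ∑ _q ∈ (univ : Finset (Bool × Bool)).erase q, 2 :=
    sum_le_sum fun q _ => by split_ifs <;> norm_num
  have h3 : ((univ : Finset (Bool × Bool)).erase q).card = 3 := by
    rw [card_erase_of_mem (mem_univ q)]; rfl
  rw [sum_const, h3] at h2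
  simp only [smul_eq_mul] at h2
  omega

theorem choice {κ : Type} [DecidableEq κ] (P : Finset (Finset V × Finset V))
    (hP : ∀ p ∈ P, Disjoint p.1 p.2) (dem : κ → V × V) (J : Finset κ) :
    ∃ c : κ → Bool × Bool,
      4 ^ J.card * ∑ p ∈ P, 2 ^ (J.filter (fun j => hit p (c j) (dem j))).card ≤
        P.card * 7 ^ J.card := by
  induction J using Finset.induction_on with
  | empty => exact ⟨fun _ => (true, true), by simp⟩
  | insert j J hj ih =>
    obtain ⟨c, hc⟩ := ih
    have hcast : ∀ q : Bool × Bool, ∀ p : Finset V × Finset V,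
        2 ^ ((insert j J).filter (fun i => hit p (Function.update c j q i) (dem i))).card =
        2 ^ (J.filter (fun i => hit p (c i) (dem i))).card *
          (if hit p q (dem j) then 2 else 1) := by
      intro q p
      rw [filter_insert]
      have h1 : J.filter (fun i => hit p (Function.update c j q i) (dem i)) =
          J.filter (fun i => hit p (c i) (dem i)) := by
        apply filter_congr
        intro i hi
        rw [Function.update_of_ne]
        rintro rfl
        exact hj hi
      rw [Function.update_self, h1]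
      split_ifs with h
      · rw [card_insert_of_notMem, pow_succ]
        intro h2
        exact hj (mem_filter.1 h2).1
      · rw [mul_one]
    have hsum : ∑ q : Bool × Bool, ∑ p ∈ P,
        2 ^ ((insert j J).filter (fun i => hit p (Function.update c j q i) (dem i))).card ≤
        7 * ∑ p ∈ P, 2 ^ (J.filter (fun i => hit p (c i) (dem i))).card := by
      rw [sum_comm, mul_sum]
      refine sum_le_sum fun p hp => ?_
      rw [sum_congr rfl fun q _ => hcast q p, ← mul_sum, mul_comm 7]
      exact Nat.mul_le_mul_left _ (four p (hP p hp) (dem j))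
    obtain ⟨q, hq⟩ : ∃ q : Bool × Bool, 4 * ∑ p ∈ P,
        2 ^ ((insert j J).filter (fun i => hit p (Function.update c j q i) (dem i))).card ≤
        7 * ∑ p ∈ P, 2 ^ (J.filter (fun i => hit p (c i) (dem i))).card := by
      by_contra hcon
      push Not at hcon
      have h1 : ∑ _q : Bool × Bool, 7 * ∑ p ∈ P, 2 ^ (J.filter (fun i => hit p (c i) (dem i))).card <
          ∑ q : Bool × Bool, 4 * ∑ p ∈ P,
        2 ^ ((insert j J).filter (fun i => hit p (Function.update c j q i) (dem i))).card :=
        sum_lt_sum_of_nonempty univ_nonempty fun q _ => hcon q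
      have h2 : Fintype.card (Bool × Bool) = 4 := rfl
      rw [sum_const, card_univ, h2, smul_eq_mul, ← mul_sum] at h1
      omega
    refine ⟨Function.update c j q, ?_⟩
    rw [card_insert_of_notMem hj, pow_succ, pow_succ, mul_assoc]
    calc 4 ^ J.card * (4 * _) ≤ 4 ^ J.card * (7 * _) := Nat.mul_le_mul_left _ hq
      _ = 7 * (4 ^ J.card * _) := by ring
      _ ≤ 7 * (P.card * 7 ^ J.card) := Nat.mul_le_mul_left _ hc
      _ = _ := by ring

end contr

theorem t_CONTR : BNTW.S_CONTR := by
  classical
  intro ι V κ _ _ _ _ S Y1 Y2 cap hcap J dem hdem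
  let P : Finset (Finset V × Finset V) :=
    (S.powerset ×ˢ S.powerset).filter (fun p => Disjoint p.1 p.2)
  have hPc : P.card ≤ 4 ^ S.card := by
    refine (card_filter_le _ _).trans ?_
    rw [card_product, card_powerset, ← mul_pow]
    exact le_of_eq (by norm_num)
  obtain ⟨c, hc⟩ := choice P (fun p hp => (mem_filter.1 hp).2) dem J
  refine ⟨fun j => (if (c j).1 then Y1 (dem j).1 else Y2 (dem j).1) ∪
    (if (c j).2 then Y1 (dem j).2 else Y2 (dem j).2), ?_, ?_⟩
  · intro j _
    dsimp only
    cases h1 : (c j).1 <;> cases h2 : (c j).2 <;> simp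
  · intro f hf
    set p : Finset V × Finset V := (S.filter (fun x => f ∈ Y1 x), S.filter (fun x => f ∈ Y2 x))
      with hp
    have hpP : p ∈ P := by
      refine mem_filter.2 ⟨mem_product.2 ⟨?_, ?_⟩, ?_⟩
      · exact mem_powerset.2 (filter_subset _ _)
      · exact mem_powerset.2 (filter_subset _ _)
      · rw [disjoint_left]
        intro x hx hx'
        exact hcap x (mem_filter.1 hx).1 f hf (mem_filter.1 hx).2 (mem_filter.1 hx').2
    have hload : J.filter (fun j => f ∈ (if (c j).1 then Y1 (dem j).1 else Y2 (dem j).1) ∪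
        (if (c j).2 then Y1 (dem j).2 else Y2 (dem j).2)) =
        J.filter (fun j => hit p (c j) (dem j)) := by
      apply filter_congr
      intro j hj
      obtain ⟨h1, h2⟩ := hdem j hj
      unfold hit
      rw [mem_union]
      have e1 : (f ∈ if (c j).1 = true then Y1 (dem j).1 else Y2 (dem j).1) ↔
          (dem j).1 ∈ if (c j).1 = true then p.1 else p.2 := by
        rcases (c j).1 <;> simp [hp, h1]
      have e2 : (f ∈ if (c j).2 = true then Y1 (dem j).2 else Y2 (dem j).2) ↔
          (dem j).2 ∈ if (c j).2 = true then p.1 else p.2 := by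
        rcases (c j).2 <;> simp [hp, h2]
      rw [e1, e2]
    rw [hload]
    set m := (J.filter (fun j => hit p (c j) (dem j))).card with hm
    set n := J.card
    have h1 : 4 ^ n * 2 ^ m ≤ 4 ^ S.card * 7 ^ n := by
      calc 4 ^ n * 2 ^ m ≤ 4 ^ n * ∑ p ∈ P, 2 ^ (J.filter (fun j => hit p (c j) (dem j))).card := by
            apply Nat.mul_le_mul_left
            exact single_le_sum (f := fun p => 2 ^ (J.filter (fun j => hit p (c j) (dem j))).card)
              (fun _ _ => Nat.zero_le _) hpP
        _ ≤ P.card * 7 ^ n := hc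
        _ ≤ _ := Nat.mul_le_mul_right _ hPc
    have h2 : 2 ^ (32 * n + 16 * m) ≤ 2 ^ (32 * S.card + 45 * n) := by
      have h3 := Nat.pow_le_pow_left h1 16
      calc 2 ^ (32 * n + 16 * m) = (4 ^ n * 2 ^ m) ^ 16 := by
            rw [show (4 : ℕ) = 2 ^ 2 by norm_num, mul_pow, ← pow_mul, ← pow_mul, ← pow_mul, pow_add]
            congr 1
            · congr 1; ring
            · congr 1; ring
        _ ≤ (4 ^ S.card * 7 ^ n) ^ 16 := h3
        _ = 2 ^ (32 * S.card) * (7 ^ 16) ^ n := by
            rw [show (4 : ℕ) = 2 ^ 2 by norm_num, mul_pow, ← pow_mul, ← pow_mul, ← pow_mul,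
              ← pow_mul]
            congr 1
            · congr 1; ring
            · congr 1; ring
        _ ≤ 2 ^ (32 * S.card) * (2 ^ 45) ^ n := by
            apply Nat.mul_le_mul_left
            apply Nat.pow_le_pow_left
            norm_num
        _ = _ := by rw [← pow_mul, pow_add]
    have h4 := (Nat.pow_le_pow_iff_right (by norm_num : 1 < 2)).1 h2
    omega

end Pool.Agent.Helper74.KO
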